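import Mathlib
import Pool.Agent.U174.AK.Stm

/-!
# Project AK, package DOM

Statement by helper174, proof by helper27.
-/

set_option autoImplicit false

namespace Pool.Agent.U27.AK

open Pool.Agent.U174.AK Polynomial

section
variable {K : Type} [Field K] {O : ValuationSubring K} {E : Subfield K} {x : K}

lemma ev_and {p q : K → Prop} (hp : Ev O E x p) (hq : Ev O E x q) : Ev O E x fun a => p a ∧ q a := by
  obtain ⟨a, ha, h1⟩ := hp
  obtain ⟨b, hb, h2⟩ := hq
  rcases le_total (O.valuation (x - a)) (O.valuation (x - b)) with h | h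
  · exact ⟨a, ha, fun c hc hc2 => ⟨h1 c hc hc2, h2 c hc (hc2.trans h)⟩⟩
  · exact ⟨b, hb, fun c hc hc2 => ⟨h1 c hc (hc2.trans h), h2 c hc hc2⟩⟩

lemma ev_true {p : K → Prop} (hp : ∀ a ∈ E, p a) : Ev O E x p :=
  ⟨0, E.zero_mem, fun a ha _ => hp a ha⟩

lemma ev_mono {p q : K → Prop} (hp : Ev O E x p) (h : ∀ a ∈ E, p a → q a) : Ev O E x q := by
  obtain ⟨a, ha, h1⟩ := hp
  exact ⟨a, ha, fun c hc hc2 => h c hc (h1 c hc hc2)⟩

lemma ev_finset {ι : Type} (s : Finset ι) {p : ι → K → Prop} (hp : ∀ i ∈ s, Ev O E x (p i)) :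
    Ev O E x fun a => ∀ i ∈ s, p i a := by
  classical
  induction s using Finset.induction_on with
  | empty => exact ev_true fun a _ i hi => absurd hi (by simp)
  | insert i s _ ih =>
    have h1 := ev_and (hp i (Finset.mem_insert_self _ _))
      (ih fun j hj => hp j (Finset.mem_insert_of_mem hj))
    refine ev_mono h1 fun a _ h j hj => ?_
    rcases Finset.mem_insert.1 hj with rfl | h2
    · exact h.1
    · exact h.2 j h2

variable (hx : NoBest O E x)

include hx in
lemma lam_pos {a : K} (ha : a ∈ E) : 0 < O.valuation (x - a) := by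
  obtain ⟨b, _, hb⟩ := hx a ha
  exact lt_of_le_of_lt zero_le hb

include hx in
lemma cmp_lt {i j : ℕ} (hij : i < j) {b c : O.ValueGroup} (hc : c ≠ 0) :
    Ev O E x (fun a => b * O.valuation (x - a) ^ i < c * O.valuation (x - a) ^ j) ∨
      Ev O E x (fun a => c * O.valuation (x - a) ^ j < b * O.valuation (x - a) ^ i) := by
  have hc0 : 0 < c := zero_lt_iff.2 hc
  have e : ∀ t : O.ValueGroup, c * t ^ j = (c * t ^ (j - i)) * t ^ i := by
    intro t
    rw [mul_assoc, ← pow_add, Nat.sub_add_cancel hij.le]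
  have hne : j - i ≠ 0 := by omega
  by_cases h : ∃ a₀ ∈ E, c * O.valuation (x - a₀) ^ (j - i) < b
  · right
    obtain ⟨a₀, ha₀, h1⟩ := h
    refine ⟨a₀, ha₀, fun a ha hle => ?_⟩
    change c * O.valuation (x - a) ^ j < b * O.valuation (x - a) ^ i
    rw [e]
    refine mul_lt_mul_of_pos_right ?_ (pow_pos (lam_pos hx ha) _)
    refine lt_of_le_of_lt ?_ h1
    exact mul_le_mul_right (pow_le_pow_left' hle _) _
  · left
    push Not at h
    refine ev_true fun a ha => ?_
    obtain ⟨a', ha', h2⟩ := hx a ha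
    rw [e]
    refine mul_lt_mul_of_pos_right ?_ (pow_pos (lam_pos hx ha) _)
    refine lt_of_le_of_lt (h a' ha') ?_
    exact mul_lt_mul_of_pos_left (pow_lt_pow_left₀ h2 zero_le hne) hc0

include hx in
lemma cmp {i j : ℕ} (hij : i ≠ j) {b c : O.ValueGroup} (hb : b ≠ 0) (hc : c ≠ 0) :
    Ev O E x (fun a => b * O.valuation (x - a) ^ i < c * O.valuation (x - a) ^ j) ∨
      Ev O E x (fun a => c * O.valuation (x - a) ^ j < b * O.valuation (x - a) ^ i) := by
  rcases lt_or_gt_of_ne hij with h | h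
  · exact cmp_lt hx h hc
  · exact (cmp_lt hx h hb).symm

end

theorem t_DOM : S_DOM := by
  classical
  intro K _ O E x hx Q
  set T := taylor x Q with hT
  by_cases hall : ∀ i, 1 ≤ i → T.coeff i = 0
  · exact Or.inl hall
  right
  push Not at hall
  obtain ⟨i₀, hi₀, hi₀'⟩ := hall
  set t : ℕ → K → O.ValueGroup := fun i a => O.valuation (T.coeff i) * O.valuation (x - a) ^ i
    with ht
  let S : Finset ℕ := T.support.filter (1 ≤ ·)
  have hS : ∀ i, i ∈ S ↔ T.coeff i ≠ 0 ∧ 1 ≤ i := by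
    intro i
    simp [S]
  have hSne : S.Nonempty := ⟨i₀, (hS _).2 ⟨hi₀', hi₀⟩⟩
  have hv : ∀ i ∈ S, O.valuation (T.coeff i) ≠ 0 := fun i hi =>
    (Valuation.ne_zero_iff _).2 ((hS i).1 hi).1
  -- all comparisons hold near some point
  have h1 : Ev O E x fun a => ∀ q ∈ S ×ˢ S, Ev O E x (fun a => t q.1 a < t q.2 a) →
      t q.1 a < t q.2 a := by
    refine ev_finset _ fun q _ => ?_
    by_cases hq : Ev O E x (fun a => t q.1 a < t q.2 a)
    · exact ev_mono hq fun a _ h _ => h
    · exact ev_true fun a _ h => absurd h hq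
  obtain ⟨a₀, ha₀, h2⟩ := h1
  obtain ⟨h, hhS, hmax⟩ := Finset.exists_max_image S (fun i => t i a₀) hSne
  have h3 : ∀ i ∈ S, i ≠ h → Ev O E x (fun a => t i a < t h a) := by
    intro i hi hne
    rcases cmp hx hne (hv i hi) (hv h hhS) with h4 | h4
    · exact h4
    · exfalso
      have h5 := h2 a₀ ha₀ le_rfl (h, i) (Finset.mem_product.2 ⟨hhS, hi⟩) h4
      exact absurd (hmax i hi) (not_le_of_gt h5)
  have h4 : Ev O E x fun a => ∀ i ∈ S.erase h, t i a < t h a := by
    refine ev_finset _ fun i hi => ?_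
    rw [Finset.mem_erase] at hi
    exact h3 i hi.2 hi.1
  refine ⟨h, ((hS h).1 hhS).2, ((hS h).1 hhS).1, ev_mono h4 fun a ha h5 => ?_⟩
  have hpos : 0 < t h a :=
    mul_pos (zero_lt_iff.2 (hv h hhS)) (pow_pos (lam_pos hx ha) _)
  have h6 : ∀ i, 1 ≤ i → i ≠ h → t i a < t h a := by
    intro i hi hne
    by_cases hi2 : T.coeff i = 0
    · have : t i a = 0 := by simp only [ht]; rw [hi2, map_zero, zero_mul]
      rw [this]
      exact hpos
    · exact h5 i (Finset.mem_erase.2 ⟨hne, (hS i).2 ⟨hi2, hi⟩⟩)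
  refine ⟨?_, h6⟩
  have e1 : Q.eval a - Q.eval x = ∑ i ∈ Finset.range T.natDegree, T.coeff (i + 1) * (a - x) ^ (i + 1) := by
    have e2 : Q.eval a = T.eval (a - x) := by
      rw [hT, taylor_eval, sub_add_cancel]
    rw [e2, eval_eq_sum_range, Finset.sum_range_succ']
    simp [hT]
  rw [e1]
  have hh1 : 1 ≤ h := ((hS h).1 hhS).2
  have hhN : h ≤ T.natDegree := le_natDegree_of_ne_zero ((hS h).1 hhS).1
  have e3 : ∀ i, O.valuation (T.coeff (i + 1) * (a - x) ^ (i + 1)) = t (i + 1) a := by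
    intro i
    simp only [ht]
    rw [map_mul, map_pow, Valuation.map_sub_swap]
  have e4 : h - 1 + 1 = h := Nat.sub_add_cancel hh1
  have e5 := Valuation.map_sum_eq_of_lt O.valuation (s := Finset.range T.natDegree)
    (f := fun i => T.coeff (i + 1) * (a - x) ^ (i + 1)) (j := h - 1)
    (Finset.mem_range.2 (by omega)) (by
      intro i hi
      rw [e3, e3, e4]
      refine h6 _ (by omega) ?_
      have : i ≠ h - 1 := by
        intro h7
        simp [h7] at hi
      omega)
  rw [e5, e3, e4]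

end Pool.Agent.U27.AK
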